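import Pool.Agent.H3RD.W830.RD.Stm

/-!
# NOPATH: no closed rotation through an insertion
-/

set_option autoImplicit false

namespace Pool.Agent.W503.RD.NoPath

open Finset Pool.Agent.W830.RD
open scoped Classical

section posi

variable {α : Type} [PartialOrder α] {C : Finset α} {y z : α}

theorem pos_lt (hy : y ∈ C) (h : y < z) : pos C y < pos C z := by
  unfold pos
  apply Finset.card_lt_card
  rw [Finset.ssubset_iff_of_subset]
  · exact ⟨y, mem_filter.2 ⟨hy, h⟩, fun h' => lt_irrefl _ (mem_filter.1 h').2⟩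
  · intro t ht
    rw [mem_filter] at ht ⊢
    exact ⟨ht.1, ht.2.trans h⟩

theorem pos_lt_card (hy : y ∈ C) : pos C y < C.card := by
  unfold pos
  apply Finset.card_lt_card
  rw [Finset.ssubset_iff_of_subset (filter_subset _ _)]
  exact ⟨y, hy, fun h' => lt_irrefl _ (mem_filter.1 h').2⟩

theorem le_of_pos (hC : Chn C) (hy : y ∈ C) (hz : z ∈ C) (h : pos C y ≤ pos C z) : y ≤ z := by
  rcases hC y hy z hz with h1 | h1
  · exact h1
  · rcases eq_or_lt_of_le h1 with h2 | h2
    · exact h2.symm.le
    · have := pos_lt hz h2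
      omega

theorem pos_inj (hC : Chn C) (hy : y ∈ C) (hz : z ∈ C) (h : pos C y = pos C z) : y = z :=
  le_antisymm (le_of_pos hC hy hz h.le) (le_of_pos hC hz hy h.ge)

theorem image_pos (hC : Chn C) : C.image (pos C) = range C.card := by
  apply Finset.eq_of_subset_of_card_le
  · intro i hi
    obtain ⟨t, ht, rfl⟩ := mem_image.1 hi
    exact mem_range.2 (pos_lt_card ht)
  · rw [card_range, card_image_of_injOn]
    intro t ht t' ht' h
    exact pos_inj hC ht ht' h

theorem exists_pos (hC : Chn C) {i : ℕ} (hi : i < C.card) : ∃ t ∈ C, pos C t = i := by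
  have h : i ∈ C.image (pos C) := by
    rw [image_pos hC]
    exact mem_range.2 hi
  exact mem_image.1 h

theorem card_pre (hC : Chn C) {a : ℕ} (ha : a < C.card) :
    (C.filter (fun t => pos C t ≤ a)).card = a + 1 := by
  have h1 : (C.filter (fun t => pos C t ≤ a)).image (pos C) = range (a + 1) := by
    ext i
    rw [mem_image, mem_range]
    constructor
    · rintro ⟨t, ht, rfl⟩
      have := (mem_filter.1 ht).2
      omega
    · intro hi
      obtain ⟨t, ht, hti⟩ := exists_pos hC (i := i) (by omega)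
      exact ⟨t, mem_filter.2 ⟨ht, by omega⟩, hti⟩
  have h2 : ((C.filter (fun t => pos C t ≤ a)).image (pos C)).card =
      (C.filter (fun t => pos C t ≤ a)).card := by
    apply card_image_of_injOn
    intro t ht t' ht' h
    exact pos_inj hC (mem_filter.1 ht).1 (mem_filter.1 ht').1 h
  rw [← h2, h1, card_range]

theorem card_suf (hC : Chn C) {a : ℕ} (ha : a < C.card) :
    (C.filter (fun t => a < pos C t)).card = C.card - (a + 1) := by
  have h1 := card_pre hC ha
  have h2 := Finset.card_filter_add_card_filter_not (s := C) (fun t => pos C t ≤ a)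
  have h3 : (C.filter (fun t => ¬ pos C t ≤ a)) = C.filter (fun t => a < pos C t) := by
    apply filter_congr
    intro t _
    exact not_le
  rw [h3] at h2
  omega

end posi

/-- a colouring whose classes are chains -/
theorem colour {α : Type} [Fintype α] [PartialOrder α] {F : Finset (Finset α)} (hF : Best F)
    {κ : Type} (s : Finset κ) (c : α → κ) (hc : ∀ z, c z ∈ s)
    (hch : ∀ y z, c y = c z → y ≤ z ∨ z ≤ y) :
    ∑ k ∈ s, (univ.filter (fun z => c z = k)).card ^ 2 ≤ sqs F := by
  have hP : Part ((univ.image c).image (fun k => univ.filter (fun z => c z = k)))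
      (Finset.univ : Finset α) := by
    refine ⟨?_, ?_, ?_, ?_⟩
    · intro C hC
      obtain ⟨k, _, rfl⟩ := mem_image.1 hC
      intro y hy z hz
      rw [mem_filter] at hy hz
      exact hch y z (hy.2.trans hz.2.symm)
    · intro C hC
      obtain ⟨k, hk, rfl⟩ := mem_image.1 hC
      obtain ⟨z, _, rfl⟩ := mem_image.1 hk
      exact ⟨z, mem_filter.2 ⟨mem_univ _, rfl⟩⟩
    · intro C hC C' hC' hne
      obtain ⟨k, _, rfl⟩ := mem_image.1 hC
      obtain ⟨k', _, rfl⟩ := mem_image.1 hC'
      rw [Finset.disjoint_left]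
      intro z hz hz'
      rw [mem_filter] at hz hz'
      apply hne
      rw [← hz.2, ← hz'.2]
    · ext z
      refine ⟨fun _ => mem_univ _, fun _ => ?_⟩
      rw [mem_biUnion]
      exact ⟨univ.filter (fun t => c t = c z),
        mem_image.2 ⟨c z, mem_image.2 ⟨z, mem_univ _, rfl⟩, rfl⟩,
        mem_filter.2 ⟨mem_univ _, rfl⟩⟩
  refine le_trans (le_of_eq ?_) (hF.mx _ hP)
  unfold sqs
  rw [Finset.sum_image]
  · symm
    apply Finset.sum_subset
    · intro k hk
      obtain ⟨z, _, rfl⟩ := mem_image.1 hk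
      exact hc z
    · intro k _ hk
      have : univ.filter (fun z => c z = k) = ∅ := by
        rw [filter_eq_empty_iff]
        intro z _ hz
        exact hk (mem_image.2 ⟨z, mem_univ _, hz⟩)
      rw [this]
      rfl
  · intro k hk k' _ h
    obtain ⟨z, _, rfl⟩ := mem_image.1 hk
    have h1 : z ∈ univ.filter (fun t => c t = k') := by
      dsimp only at h
      rw [← h]
      exact mem_filter.2 ⟨mem_univ _, rfl⟩
    exact (mem_filter.1 h1).2

theorem main (h : S_ROT) : S_NOPATH := by
  intro α _ _ F hF l a hal C0 hC0 hC0l x hx C1 hC1 C2 hC2 hl1 hl2 u hu w hw hpu hpw hux hxw hpath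
  obtain ⟨G, hG⟩ : ∃ G, G = F.filter (fun C => C.card = l) := ⟨_, rfl⟩
  have hGm : ∀ C, C ∈ G ↔ C ∈ F ∧ C.card = l := fun C => by rw [hG, mem_filter]
  have hG1 : C1 ∈ G := (hGm _).2 ⟨hC1, hl1⟩
  have hG2 : C2 ∈ G := (hGm _).2 ⟨hC2, hl2⟩
  have hch := hF.pt.ch
  obtain ⟨σ, hσ1, hσ2⟩ := h (Finset α) G
    (fun C C' => ∀ u ∈ C, ∀ w ∈ C', pos C u = a → pos C' w = a + 1 → u < w) C2 C1 hG2 hG1
    (by
      intro C hC u hu w hw h1 h2
      have hC' := hch C ((hGm _).1 hC).1
      refine lt_of_le_of_ne (le_of_pos hC' hu hw (by omega)) ?_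
      rintro rfl
      omega)
    (by
      refine Relation.ReflTransGen.mono ?_ _ _ hpath
      rintro C C' ⟨h1, h2, h3, h4, h5⟩
      exact ⟨(hGm _).2 ⟨h1, h3⟩, (hGm _).2 ⟨h2, h4⟩, h5⟩)
  -- the bijection of `G`
  obtain ⟨s, hs⟩ : ∃ s : Finset α → Finset α, s = fun C => if C = C1 then C2 else σ C := ⟨_, rfl⟩
  have hs1 : s C1 = C2 := by rw [hs]; exact if_pos rfl
  have hs2 : ∀ C, C ≠ C1 → s C = σ C := fun C hC => by rw [hs]; exact if_neg hC
  have hsm : ∀ C ∈ G, s C ∈ G := by
    intro C hC
    by_cases h1 : C = C1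
    · rw [h1, hs1]
      exact hG2
    · rw [hs2 C h1]
      exact (hσ1 C hC h1).1
  have hsi : ∀ C ∈ G, ∀ D ∈ G, s C = s D → C = D := by
    intro C hC D hD h1
    by_cases h2 : C = C1
    · by_cases h3 : D = C1
      · rw [h2, h3]
      · rw [h2, hs1, hs2 D h3] at h1
        exact absurd h1.symm (hσ1 D hD h3).2.2
    · by_cases h3 : D = C1
      · rw [h3, hs1, hs2 C h2] at h1
        exact absurd h1 (hσ1 C hC h2).2.2
      · rw [hs2 C h2, hs2 D h3] at h1
        exact hσ2 C hC D hD h2 h3 h1
  have hsu : ∀ D ∈ G, ∃ C ∈ G, s C = D := by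
    have h1 : G.image s = G := by
      apply Finset.eq_of_subset_of_card_le
      · intro D hD
        obtain ⟨C, hC, rfl⟩ := mem_image.1 hD
        exact hsm C hC
      · rw [card_image_of_injOn]
        intro C hC D hD h1
        exact hsi C hC D hD h1
    intro D hD
    rw [← h1] at hD
    exact mem_image.1 hD
  choose! t ht using hsu
  -- the chain of an element
  have hK0 : ∀ z : α, ∃ C ∈ F, z ∈ C := by
    intro z
    have h1 : z ∈ F.biUnion id := by
      rw [hF.pt.un]
      exact mem_univ _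
    exact mem_biUnion.1 h1
  choose K hKF hKm using hK0
  have hKu : ∀ z, ∀ C ∈ F, z ∈ C → K z = C := by
    intro z C hC hz
    by_contra hne
    exact Finset.disjoint_left.1 (hF.pt.dj _ (hKF z) _ hC hne) (hKm z) hz
  -- the base colouring
  obtain ⟨b, hb⟩ : ∃ b : α → Finset α,
    b = fun z => if K z ∈ G ∧ a < pos (K z) z then t (K z) else K z := ⟨_, rfl⟩
  have hb1 : ∀ z, K z ∈ G → a < pos (K z) z → b z = t (K z) := fun z h1 h2 => by
    rw [hb]; exact if_pos ⟨h1, h2⟩
  have hb2 : ∀ z, ¬ (K z ∈ G ∧ a < pos (K z) z) → b z = K z := fun z h1 => by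
    rw [hb]; exact if_neg h1
  have hbF : ∀ z, b z ∈ F := by
    intro z
    by_cases h1 : K z ∈ G ∧ a < pos (K z) z
    · rw [hb1 z h1.1 h1.2]
      exact ((hGm _).1 (ht _ h1.1).1).1
    · rw [hb2 z h1]
      exact hKF z
  -- classes of the base colouring
  have hcl1 : ∀ C ∈ F, C ∉ G → ∀ z, b z = C ↔ z ∈ C := by
    intro C hC hCG z
    constructor
    · intro h1
      by_cases h2 : K z ∈ G ∧ a < pos (K z) z
      · rw [hb1 z h2.1 h2.2] at h1
        exact absurd (h1 ▸ (ht _ h2.1).1) hCG
      · rw [hb2 z h2] at h1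
        rw [← h1]
        exact hKm z
    · intro h1
      have h2 := hKu z C hC h1
      rw [hb2 z (by rw [h2]; exact fun h3 => hCG h3.1), h2]
  have hcl2 : ∀ C ∈ G, ∀ z, b z = C ↔ (z ∈ C ∧ pos C z ≤ a) ∨ (z ∈ s C ∧ a < pos (s C) z) := by
    intro C hC z
    have hCF := ((hGm _).1 hC).1
    have hsF := ((hGm _).1 (hsm C hC)).1
    constructor
    · intro h1
      by_cases h2 : K z ∈ G ∧ a < pos (K z) z
      · right
        rw [hb1 z h2.1 h2.2] at h1
        have h3 : s C = K z := by
          rw [← h1]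
          exact (ht _ h2.1).2
        rw [h3]
        exact ⟨hKm z, h2.2⟩
      · left
        rw [hb2 z h2] at h1
        rw [h1] at h2
        refine ⟨h1 ▸ hKm z, ?_⟩
        by_contra h3
        exact h2 ⟨hC, by omega⟩
    · rintro (⟨h1, h2⟩ | ⟨h1, h2⟩)
      · have h3 := hKu z C hCF h1
        rw [hb2 z (by rw [h3]; omega), h3]
      · have h3 := hKu z _ hsF h1
        rw [hb1 z (by rw [h3]; exact hsm C hC) (by rw [h3]; exact h2), h3]
        exact hsi _ (ht _ (hsm C hC)).1 _ hC (ht _ (hsm C hC)).2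
  have hbc : ∀ C ∈ F, (univ.filter (fun z => b z = C)).card = C.card := by
    intro C hC
    by_cases hCG : C ∈ G
    · have h1 : univ.filter (fun z => b z = C) =
          C.filter (fun z => pos C z ≤ a) ∪ (s C).filter (fun z => a < pos (s C) z) := by
        ext z
        rw [mem_filter, mem_union, mem_filter, mem_filter, hcl2 C hCG z]
        simp only [mem_univ, true_and]
      have hsG := hsm C hCG
      have h2 : Disjoint (C.filter (fun z => pos C z ≤ a))
          ((s C).filter (fun z => a < pos (s C) z)) := by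
        rw [Finset.disjoint_left]
        intro z hz hz'
        rw [mem_filter] at hz hz'
        have h3 : C = s C :=
          (hKu z C hC hz.1).symm.trans (hKu z _ ((hGm _).1 hsG).1 hz'.1)
        rw [← h3] at hz'
        omega
      rw [h1, card_union_of_disjoint h2]
      have hCl := ((hGm _).1 hCG).2
      have hsl := ((hGm _).1 hsG).2
      rw [card_pre (hch C hC) (by omega), card_suf (hch _ ((hGm _).1 hsG).1) (by omega)]
      omega
    · congr 1
      ext z
      rw [mem_filter, hcl1 C hC hCG z]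
      simp only [mem_univ, true_and]
  -- elements of the class `C1`
  have hC1c : ∀ z, b z = C1 → z < x ∨ x < z := by
    intro z hz
    rcases (hcl2 C1 hG1 z).1 hz with ⟨h1, h2⟩ | ⟨h1, h2⟩
    · left
      exact lt_of_le_of_lt (le_of_pos (hch _ hC1) h1 hu (by omega)) hux
    · right
      rw [hs1] at h1 h2
      exact lt_of_lt_of_le hxw (le_of_pos (hch _ hC2) hw h1 (by omega))
  have hYne : b x ≠ C1 := by
    intro h1
    rcases hC1c x h1 with h2 | h2 <;> exact lt_irrefl _ h2
  have hYF := hbF x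
  have hYc : (b x).card = C0.card := by
    have h1 := hKu x C0 hC0 hx
    by_cases h2 : K x ∈ G ∧ a < pos (K x) x
    · rw [hb1 x h2.1 h2.2, ((hGm _).1 (ht _ h2.1).1).2, ← h1, ((hGm _).1 h2.1).2]
    · rw [hb2 x h2, h1]
  -- the base colouring is a colouring by chains
  have hbch : ∀ y z, b y = b z → y ≤ z ∨ z ≤ y := by
    have key : ∀ C ∈ G, ∀ y z, y ∈ C → pos C y ≤ a → z ∈ s C → a < pos (s C) z → y ≤ z := by
      intro C hC y z hy hpy hz hpz
      by_cases h1 : C = C1
      · rw [h1] at hy hpy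
        rw [h1, hs1] at hz hpz
        have e1 := le_of_pos (hch _ hC1) hy hu (by omega)
        have e2 := le_of_pos (hch _ hC2) hw hz (by omega)
        exact (lt_of_le_of_lt e1 (hux.trans (lt_of_lt_of_le hxw e2))).le
      · have h2 := (hσ1 C hC h1).2.1
        rw [← hs2 C h1] at h2
        have hsG := hsm C hC
        obtain ⟨hCF, hCl⟩ := (hGm _).1 hC
        obtain ⟨hsF, hsl⟩ := (hGm _).1 hsG
        obtain ⟨u', hu', hpu'⟩ := exists_pos (hch _ hCF) (i := a) (by omega)
        obtain ⟨w', hw', hpw'⟩ := exists_pos (hch _ hsF) (i := a + 1) (by omega)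
        have e0 := h2 u' hu' w' hw' hpu' hpw'
        have e1 := le_of_pos (hch _ hCF) hy hu' (by omega)
        have e2 := le_of_pos (hch _ hsF) hw' hz (by omega)
        exact e1.trans (e0.le.trans e2)
    intro y z hyz
    by_cases hCG : b z ∈ G
    · have hCF := ((hGm _).1 hCG).1
      have hsF := ((hGm _).1 (hsm _ hCG)).1
      rcases (hcl2 _ hCG y).1 hyz with ⟨h1, h2⟩ | ⟨h1, h2⟩ <;>
        rcases (hcl2 _ hCG z).1 rfl with ⟨h3, h4⟩ | ⟨h3, h4⟩
      · exact hch _ hCF y h1 z h3
      · exact Or.inl (key _ hCG y z h1 h2 h3 h4)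
      · exact Or.inr (key _ hCG z y h3 h4 h1 h2)
      · exact hch _ hsF y h1 z h3
    · have h1 := (hcl1 _ (hbF z) hCG y).1 hyz
      have h2 := (hcl1 _ (hbF z) hCG z).1 rfl
      exact hch _ (hbF z) y h1 z h2
  -- the new colouring
  obtain ⟨c, hc⟩ : ∃ c : α → Finset α, c = fun z => if z = x then C1 else b z := ⟨_, rfl⟩
  have hcx : c x = C1 := by rw [hc]; exact if_pos rfl
  have hcz : ∀ z, z ≠ x → c z = b z := fun z hz => by rw [hc]; exact if_neg hz
  have hcF : ∀ z, c z ∈ F := by
    intro z
    by_cases h1 : z = x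
    · rw [h1, hcx]
      exact hC1
    · rw [hcz z h1]
      exact hbF z
  have hcch : ∀ y z, c y = c z → y ≤ z ∨ z ≤ y := by
    intro y z hyz
    by_cases h1 : y = x
    · by_cases h2 : z = x
      · rw [h1, h2]
        exact Or.inl le_rfl
      · rw [h1, hcx, hcz z h2] at hyz
        rcases hC1c z hyz.symm with h3 | h3
        · exact Or.inr (h1 ▸ h3.le)
        · exact Or.inl (h1 ▸ h3.le)
    · by_cases h2 : z = x
      · rw [h2, hcx, hcz y h1] at hyz
        rcases hC1c y hyz with h3 | h3
        · exact Or.inl (h2 ▸ h3.le)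
        · exact Or.inr (h2 ▸ h3.le)
      · rw [hcz y h1, hcz z h2] at hyz
        exact hbch y z hyz
  have hsum : ∑ k ∈ F, (univ.filter (fun z => c z = k)).card ^ 2 ≤ sqs F := by
    convert colour hF F c hcF hcch
  -- sizes of the classes
  have hn1 : (univ.filter (fun z => c z = C1)).card = l + 1 := by
    have h1 : univ.filter (fun z => c z = C1) = insert x (univ.filter (fun z => b z = C1)) := by
      ext z
      rw [mem_filter, mem_insert, mem_filter]
      simp only [mem_univ, true_and]
      by_cases h2 : z = x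
      · simp only [h2, hcx, true_or]
      · simp only [h2, hcz z h2, false_or]
    rw [h1, card_insert_of_notMem, hbc C1 hC1, hl1]
    rw [mem_filter]
    exact fun h2 => hYne h2.2
  have hn2 : (univ.filter (fun z => c z = b x)).card = (b x).card - 1 := by
    have h1 : univ.filter (fun z => c z = b x) = (univ.filter (fun z => b z = b x)).erase x := by
      ext z
      rw [mem_filter, mem_erase, mem_filter]
      simp only [mem_univ, true_and]
      by_cases h2 : z = x
      · rw [h2, hcx]
        simp only [ne_eq, not_true_eq_false, false_and, iff_false]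
        exact hYne.symm
      · simp only [ne_eq, h2, hcz z h2, not_false_eq_true, true_and]
    have hm : x ∈ univ.filter (fun z => b z = b x) := mem_filter.2 ⟨mem_univ _, rfl⟩
    rw [h1, card_erase_of_mem hm, hbc _ hYF]
  have hn3 : ∀ C ∈ F, C ≠ C1 → C ≠ b x → (univ.filter (fun z => c z = C)).card = C.card := by
    intro C hC h1 h2
    rw [← hbc C hC]
    congr 1
    ext z
    rw [mem_filter, mem_filter]
    simp only [mem_univ, true_and]
    by_cases h3 : z = x
    · rw [h3, hcx]
      exact ⟨fun h4 => absurd h4.symm h1, fun h4 => absurd h4.symm h2⟩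
    · rw [hcz z h3]
  have hYe : b x ∈ F.erase C1 := mem_erase.2 ⟨hYne, hYF⟩
  unfold sqs at hsum
  rw [← Finset.add_sum_erase F _ hC1, ← Finset.add_sum_erase (F.erase C1) _ hYe,
    ← Finset.add_sum_erase F (fun C => C.card ^ 2) hC1,
    ← Finset.add_sum_erase (F.erase C1) (fun C => C.card ^ 2) hYe, hn1, hn2, hl1] at hsum
  have hrest : ∑ C ∈ (F.erase C1).erase (b x), (univ.filter (fun z => c z = C)).card ^ 2 =
      ∑ C ∈ (F.erase C1).erase (b x), C.card ^ 2 := by
    refine Finset.sum_congr rfl fun C hC => ?_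
    rw [mem_erase, mem_erase] at hC
    rw [hn3 C hC.2.2 hC.2.1 hC.1]
  rw [hrest] at hsum
  have hpos : 0 < (b x).card := card_pos.2 (hF.pt.ne _ hYF)
  obtain ⟨k, hk⟩ : ∃ k, (b x).card = k + 1 := ⟨(b x).card - 1, by omega⟩
  rw [hk] at hsum hYc
  have hkl : k + 1 ≤ l := by omega
  rw [Nat.add_sub_cancel] at hsum
  nlinarith [hsum, hkl]

end Pool.Agent.W503.RD.NoPath
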